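import Mathlib

/-!
# The Schur property of a combinatorial space does not imply property (S*)
-/

open scoped ENNReal NNReal Topology BigOperators
open Filter

namespace Pool.Agent.Results.MP_8d662a_an.SchurNotSStar

/-- `‖x‖_𝓕 = sup {∑_{k∈F} |x k| : F ∈ 𝓕}`, a number in `[0,∞]`. -/
noncomputable def nrm (𝓕 : Set (Finset ℕ)) (x : ℕ → ℝ) : ℝ≥0∞ :=
  ⨆ F ∈ 𝓕, ∑ k ∈ F, ENNReal.ofReal |x k|

/-- The coordinate projection of `x` onto `[n,∞)`. -/
def tail (n : ℕ) (x : ℕ → ℝ) : ℕ → ℝ := fun k => if n ≤ k then x k else 0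

theorem nrm_add_le (𝓕 : Set (Finset ℕ)) (x y : ℕ → ℝ) :
    nrm 𝓕 (x + y) ≤ nrm 𝓕 x + nrm 𝓕 y := by
  refine iSup₂_le fun F hF => ?_
  calc ∑ k ∈ F, ENNReal.ofReal |(x + y) k|
      ≤ ∑ k ∈ F, (ENNReal.ofReal |x k| + ENNReal.ofReal |y k|) := by
        refine Finset.sum_le_sum fun k _ => ?_
        rw [← ENNReal.ofReal_add (abs_nonneg _) (abs_nonneg _)]
        exact ENNReal.ofReal_le_ofReal (abs_add_le _ _)
    _ = ∑ k ∈ F, ENNReal.ofReal |x k| + ∑ k ∈ F, ENNReal.ofReal |y k| :=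
        Finset.sum_add_distrib
    _ ≤ nrm 𝓕 x + nrm 𝓕 y :=
        add_le_add (le_iSup₂_of_le F hF le_rfl) (le_iSup₂_of_le F hF le_rfl)

theorem nrm_smul_le (𝓕 : Set (Finset ℕ)) (c : ℝ) (x : ℕ → ℝ) :
    nrm 𝓕 (c • x) ≤ ENNReal.ofReal |c| * nrm 𝓕 x := by
  refine iSup₂_le fun F hF => ?_
  calc ∑ k ∈ F, ENNReal.ofReal |(c • x) k|
      = ENNReal.ofReal |c| * ∑ k ∈ F, ENNReal.ofReal |x k| := by
        rw [Finset.mul_sum]
        refine Finset.sum_congr rfl fun k _ => ?_
        rw [← ENNReal.ofReal_mul (abs_nonneg _)]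
        simp [abs_mul]
    _ ≤ _ := by gcongr; exact le_iSup₂_of_le F hF le_rfl

theorem tail_add (n : ℕ) (x y : ℕ → ℝ) : tail n (x + y) = tail n x + tail n y := by
  funext k; simp only [tail, Pi.add_apply]; split_ifs <;> simp

theorem tail_smul (n : ℕ) (c : ℝ) (x : ℕ → ℝ) : tail n (c • x) = c • tail n x := by
  funext k; simp only [tail, Pi.smul_apply]; split_ifs <;> simp

theorem nrm_zero (𝓕 : Set (Finset ℕ)) : nrm 𝓕 0 = 0 := by
  simp [nrm]

/-- The combinatorial space `X_𝓕`: all `x` with `‖P_{[n,∞)} x‖_𝓕 → 0`. -/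
def X (𝓕 : Set (Finset ℕ)) : Submodule ℝ (ℕ → ℝ) where
  carrier := {x | Tendsto (fun n => nrm 𝓕 (tail n x)) atTop (𝓝 0)}
  zero_mem' := by
    have : ∀ n, tail n (0 : ℕ → ℝ) = 0 := fun n => by funext k; simp [tail]
    simp [this, nrm_zero]
  add_mem' := by
    intro x y hx hy
    simp only [Set.mem_ofPred_eq] at hx hy ⊢
    have h := hx.add hy
    rw [add_zero] at h
    refine tendsto_of_tendsto_of_tendsto_of_le_of_le tendsto_const_nhds h (fun _ => zero_le) ?_
    intro n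
    show nrm 𝓕 (tail n (x + y)) ≤ nrm 𝓕 (tail n x) + nrm 𝓕 (tail n y)
    rw [tail_add]
    exact nrm_add_le _ _ _
  smul_mem' := by
    intro c x hx
    simp only [Set.mem_ofPred_eq] at hx ⊢
    have h := ENNReal.Tendsto.const_mul (a := ENNReal.ofReal |c|) hx
      (Or.inr ENNReal.ofReal_ne_top)
    rw [mul_zero] at h
    refine tendsto_of_tendsto_of_tendsto_of_le_of_le tendsto_const_nhds h (fun _ => zero_le) ?_
    intro n
    show nrm 𝓕 (tail n (c • x)) ≤ _
    rw [tail_smul]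
    exact nrm_smul_le _ _ _

/-- The Schur property of `X_𝓕`: every weakly convergent sequence (tested against all bounded
linear functionals on `X_𝓕`) is norm convergent. -/
def SchurProperty (𝓕 : Set (Finset ℕ)) : Prop :=
  ∀ (x : ℕ → X 𝓕) (y : X 𝓕),
    (∀ φ : X 𝓕 →ₗ[ℝ] ℝ,
      (∃ C : ℝ≥0, ∀ z : X 𝓕, ENNReal.ofReal |φ z| ≤ C * nrm 𝓕 (z : ℕ → ℝ)) →
        Tendsto (fun n => φ (x n)) atTop (𝓝 (φ y))) →
    Tendsto (fun n => nrm 𝓕 ((x n - y : X 𝓕) : ℕ → ℝ)) atTop (𝓝 0)

/-- The closure of `𝓕` in `{0,1}^ℕ` (product topology). -/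
def closureFam (𝓕 : Set (Finset ℕ)) : Set (ℕ → Bool) :=
  closure ((fun (F : Finset ℕ) (k : ℕ) => decide (k ∈ F)) '' 𝓕)

/-- Property `(S*)`: for every sequence of pairwise disjoint members of `𝓕` there is a finite
`𝒜 ⊆ closure 𝓕` such that `F n ⊆ ⋃ 𝒜` for infinitely many `n`. -/
def SStar (𝓕 : Set (Finset ℕ)) : Prop :=
  ∀ F : ℕ → Finset ℕ, (∀ n, F n ∈ 𝓕) → (∀ m n, m ≠ n → Disjoint (F m) (F n)) →
    ∃ 𝒜 : Finset (ℕ → Bool), (∀ A ∈ 𝒜, A ∈ closureFam 𝓕) ∧
      {n | ∀ k ∈ F n, ∃ A ∈ 𝒜, A k = true}.Infinite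

/-- `𝓕` is hereditary. -/
def Hereditary (𝓕 : Set (Finset ℕ)) : Prop := ∀ F ∈ 𝓕, ∀ G ⊆ F, G ∈ 𝓕

/-- `𝓕` covers `ℕ`. -/
def Covers (𝓕 : Set (Finset ℕ)) : Prop := ∀ k, ∃ F ∈ 𝓕, k ∈ F

/-! ### The example -/

/-- The finite set coded by `k` (binary digits). -/
def S (k : ℕ) : Finset ℕ := Finset.equivBitIndices k

/-- `k` belongs to block `c`. -/
def InBlk (c k : ℕ) : Prop := (S k).card = c ∧ S k ⊆ Finset.range (2 * c)

theorem InBlk.eq {c d k : ℕ} (h : InBlk c k) (h' : InBlk d k) : c = d := h.1.symm.trans h'.1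

instance (c k : ℕ) : Decidable (InBlk c k) := by unfold InBlk; infer_instance

/-- The block as a finite set. -/
def blk (c : ℕ) : Finset ℕ :=
  (Finset.powersetCard c (Finset.range (2 * c))).map Finset.equivBitIndices.symm.toEmbedding

theorem mem_blk {c k : ℕ} : k ∈ blk c ↔ InBlk c k := by
  unfold blk InBlk S
  simp only [Finset.mem_map, Finset.mem_powersetCard, Equiv.coe_toEmbedding]
  constructor
  · rintro ⟨s, ⟨h1, h2⟩, rfl⟩
    simp [h1, h2]
  · rintro ⟨h1, h2⟩
    exact ⟨Finset.equivBitIndices k, ⟨h2, h1⟩, by simp⟩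

/-- The family. -/
def fam : Set (Finset ℕ) :=
  {F | (∃ c, ∀ k ∈ F, InBlk c k) ∨ ∀ c, 1 ≤ c → ∃ i, ∀ k ∈ F, InBlk c k → i ∈ S k}

theorem hereditary_fam : Hereditary fam := by
  intro F hF G hG
  rcases hF with ⟨c, hc⟩ | h
  · exact Or.inl ⟨c, fun k hk => hc k (hG hk)⟩
  · right
    intro c hc
    obtain ⟨i, hi⟩ := h c hc
    exact ⟨i, fun k hk => hi k (hG hk)⟩

theorem covers_fam : Covers fam := by
  intro k
  refine ⟨{k}, ?_, by simp⟩
  right
  intro c hc
  by_cases h : InBlk c k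
  · have : (S k).Nonempty := by
      rw [← Finset.card_pos, h.1]; omega
    obtain ⟨i, hi⟩ := this
    exact ⟨i, by simpa using fun _ => hi⟩
  · exact ⟨0, by simp [h]⟩

/-- Choice of a good index in block `c`. -/
theorem exists_index (x : ℕ → ℝ) (K : Finset ℕ) (c : ℕ) (hc : 1 ≤ c) :
    ∃ i, (1/2 : ℝ) * ∑ k ∈ K with (S k).card = c, |x k| ≤
      ∑ k ∈ K with (S k).card = c, if (InBlk c k → i ∈ S k) then |x k| else 0 := by
  classical
  have hne : (Finset.range (2 * c)).Nonempty := ⟨0, by simp; omega⟩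
  have hsum : ∑ _i ∈ Finset.range (2 * c), ((1/2 : ℝ) * ∑ k ∈ K with (S k).card = c, |x k|) ≤
      ∑ i ∈ Finset.range (2 * c),
        ∑ k ∈ K with (S k).card = c, (if (InBlk c k → i ∈ S k) then |x k| else 0) := by
    rw [Finset.sum_comm, Finset.sum_const, Finset.card_range, nsmul_eq_mul, ← mul_assoc,
      Finset.mul_sum]
    refine Finset.sum_le_sum fun k hk => ?_
    rw [← Finset.sum_filter, Finset.sum_const, nsmul_eq_mul]
    refine mul_le_mul_of_nonneg_right ?_ (abs_nonneg _)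
    have hk' : (S k).card = c := (Finset.mem_filter.mp hk).2
    have hcard : c ≤ ((Finset.range (2 * c)).filter (fun i => InBlk c k → i ∈ S k)).card := by
      by_cases hb : InBlk c k
      · rw [← hk']
        refine Finset.card_le_card ?_
        intro i hi
        rw [hk']
        exact Finset.mem_filter.mpr ⟨hb.2 hi, fun _ => hi⟩
      · have : (Finset.range (2 * c)).filter (fun i => InBlk c k → i ∈ S k) =
            Finset.range (2 * c) := by
          refine Finset.filter_true_of_mem fun i _ h => absurd h hb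
        rw [this, Finset.card_range]; omega
    have : (c : ℝ) ≤ (((Finset.range (2 * c)).filter (fun i => InBlk c k → i ∈ S k)).card : ℝ) := by
      exact_mod_cast hcard
    push_cast
    linarith
  obtain ⟨i, _, hi⟩ := Finset.exists_le_of_sum_le hne hsum
  exact ⟨i, hi⟩

/-- Lower `ℓ_1`-estimate. -/
theorem lower (x : ℕ → ℝ) (K : Finset ℕ) :
    ∃ F ∈ fam, (1/2 : ℝ) * ∑ k ∈ K, |x k| ≤ ∑ k ∈ F, |x k| := by
  classical
  have h0 : ∀ c, ∃ i, 1 ≤ c → (1/2 : ℝ) * ∑ k ∈ K with (S k).card = c, |x k| ≤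
      ∑ k ∈ K with (S k).card = c, if (InBlk c k → i ∈ S k) then |x k| else 0 := by
    intro c
    by_cases hc : 1 ≤ c
    · obtain ⟨i, hi⟩ := exists_index x K c hc
      exact ⟨i, fun _ => hi⟩
    · exact ⟨0, fun h => absurd h hc⟩
  choose i hi using h0
  refine ⟨K.filter (fun k => ∀ c, 1 ≤ c → InBlk c k → i c ∈ S k), ?_, ?_⟩
  · right
    intro c hc
    refine ⟨i c, fun k hk hb => ?_⟩
    exact (Finset.mem_filter.mp hk).2 c hc hb
  · have hmaps : ∀ k ∈ K, (S k).card ∈ K.image (fun k => (S k).card) :=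
      fun k hk => Finset.mem_image_of_mem _ hk
    rw [Finset.sum_filter, ← Finset.sum_fiberwise_of_maps_to hmaps (fun k => |x k|),
      ← Finset.sum_fiberwise_of_maps_to hmaps, Finset.mul_sum]
    refine Finset.sum_le_sum fun c _ => ?_
    rcases Nat.eq_zero_or_pos c with hc | hc
    · subst hc
      have h1 : ∀ k ∈ K.filter (fun k => (S k).card = 0),
          (if ∀ c, 1 ≤ c → InBlk c k → i c ∈ S k then |x k| else 0) = |x k| := by
        intro k hk
        have hk' := (Finset.mem_filter.mp hk).2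
        rw [if_pos]
        intro c hc hb
        have := hb.1
        omega
      rw [Finset.sum_congr rfl h1]
      have : 0 ≤ ∑ k ∈ K with (S k).card = 0, |x k| := Finset.sum_nonneg fun _ _ => abs_nonneg _
      linarith
    · refine (hi c hc).trans (Finset.sum_le_sum fun k hk => ?_)
      have hk' := (Finset.mem_filter.mp hk).2
      by_cases h : InBlk c k → i c ∈ S k
      · rw [if_pos h, if_pos]
        intro d _ hb
        have : d = c := by rw [← hb.1, hk']
        subst this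
        exact h hb
      · rw [if_neg h]
        split_ifs
        · exact abs_nonneg _
        · exact le_refl _

theorem sum_ofReal (F : Finset ℕ) (x : ℕ → ℝ) :
    ∑ k ∈ F, ENNReal.ofReal |x k| = ENNReal.ofReal (∑ k ∈ F, |x k|) :=
  (ENNReal.ofReal_sum_of_nonneg fun _ _ => abs_nonneg _).symm

theorem half_le (x : ℕ → ℝ) (K : Finset ℕ) :
    ENNReal.ofReal ((1/2 : ℝ) * ∑ k ∈ K, |x k|) ≤ nrm fam x := by
  obtain ⟨F, hF, h⟩ := lower x K
  refine (ENNReal.ofReal_le_ofReal h).trans ?_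
  rw [← sum_ofReal]
  exact le_iSup₂_of_le F hF le_rfl

theorem nrm_lt_top (z : X fam) : nrm fam (z : ℕ → ℝ) < ⊤ := by
  have hz : Tendsto (fun n => nrm fam (tail n z)) atTop (𝓝 0) := z.2
  obtain ⟨n, hn⟩ := (hz.eventually (gt_mem_nhds (show (0:ℝ≥0∞) < 1 by norm_num))).exists
  have h1 : (z : ℕ → ℝ) = (fun k => if k < n then (z : ℕ → ℝ) k else 0) + tail n z := by
    funext k
    simp only [tail, Pi.add_apply]
    by_cases h : k < n
    · simp [h]
    · simp [h, not_lt.mp h]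
  rw [h1]
  refine (nrm_add_le _ _ _).trans_lt (ENNReal.add_lt_top.mpr ⟨?_, hn.trans (by norm_num)⟩)
  refine lt_of_le_of_lt (b := ENNReal.ofReal (∑ k ∈ Finset.range n, |(z : ℕ → ℝ) k|)) ?_
    ENNReal.ofReal_lt_top
  refine iSup₂_le fun F _ => ?_
  rw [sum_ofReal]
  refine ENNReal.ofReal_le_ofReal ?_
  have : ∀ k ∈ F, |(if k < n then (z : ℕ → ℝ) k else 0)| =
      if k < n then |(z : ℕ → ℝ) k| else 0 := by
    intro k _; split_ifs <;> simp
  rw [Finset.sum_congr rfl this, ← Finset.sum_filter]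
  refine Finset.sum_le_sum_of_subset_of_nonneg ?_ (fun _ _ _ => abs_nonneg _)
  intro k hk
  simpa using (Finset.mem_filter.mp hk).2

theorem sum_le (z : X fam) (K : Finset ℕ) :
    ∑ k ∈ K, |(z : ℕ → ℝ) k| ≤ 2 * (nrm fam (z : ℕ → ℝ)).toReal := by
  have h := half_le z K
  have h2 := (ENNReal.ofReal_le_iff_le_toReal (nrm_lt_top z).ne).mp h
  linarith

theorem summable_abs (z : X fam) : Summable (fun k => |(z : ℕ → ℝ) k|) :=
  summable_of_sum_le (fun _ => abs_nonneg _) (sum_le z)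

theorem tsum_le (z : X fam) : ∑' k, |(z : ℕ → ℝ) k| ≤ 2 * (nrm fam (z : ℕ → ℝ)).toReal :=
  Real.tsum_le_of_sum_le (fun _ => abs_nonneg _) (sum_le z)

theorem nrm_le_tsum (z : X fam) : nrm fam (z : ℕ → ℝ) ≤ ENNReal.ofReal (∑' k, |(z : ℕ → ℝ) k|) := by
  refine iSup₂_le fun F _ => ?_
  rw [sum_ofReal]
  exact ENNReal.ofReal_le_ofReal ((summable_abs z).sum_le_tsum F (fun _ _ => abs_nonneg _))

/-- The sign attached to a bit. -/
def sg (b : Bool) : ℝ := if b then 1 else -1

theorem abs_sg (b : Bool) : |sg b| = 1 := by cases b <;> simp [sg]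

theorem summable_sg (σ : ℕ → Bool) (z : X fam) :
    Summable (fun k => sg (σ k) * (z : ℕ → ℝ) k) := by
  refine Summable.of_norm_bounded (summable_abs z) (fun k => ?_)
  rw [Real.norm_eq_abs, abs_mul, abs_sg, one_mul]

/-- The functional attached to a sequence of signs. -/
noncomputable def phi (σ : ℕ → Bool) : X fam →ₗ[ℝ] ℝ where
  toFun z := ∑' k, sg (σ k) * (z : ℕ → ℝ) k
  map_add' z w := by
    rw [← (summable_sg σ z).tsum_add (summable_sg σ w)]
    refine tsum_congr fun k => ?_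
    simp [mul_add]
  map_smul' c z := by
    simp only [RingHom.id_apply, smul_eq_mul]
    rw [← tsum_mul_left]
    refine tsum_congr fun k => ?_
    simp only [Submodule.coe_smul, Pi.smul_apply, smul_eq_mul]
    ring

theorem abs_phi_le (σ : ℕ → Bool) (z : X fam) : |phi σ z| ≤ ∑' k, |(z : ℕ → ℝ) k| := by
  have h1 : Summable (fun k => ‖sg (σ k) * (z : ℕ → ℝ) k‖) := by
    simpa [abs_mul, abs_sg] using summable_abs z
  have := norm_tsum_le_tsum_norm h1
  simpa [phi, abs_mul, abs_sg] using this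

theorem bdd_of_le {φ : X fam →ₗ[ℝ] ℝ} (h : ∀ z : X fam, |φ z| ≤ ∑' k, |(z : ℕ → ℝ) k|) :
    ∃ C : ℝ≥0, ∀ z : X fam, ENNReal.ofReal |φ z| ≤ C * nrm fam (z : ℕ → ℝ) := by
  refine ⟨2, fun z => ?_⟩
  have h1 := (h z).trans (tsum_le z)
  refine (ENNReal.ofReal_le_ofReal h1).trans ?_
  rw [ENNReal.ofReal_mul (by norm_num), ENNReal.ofReal_toReal (nrm_lt_top z).ne]
  norm_num

/-- The coordinate functionals. -/
def coord (m : ℕ) : X fam →ₗ[ℝ] ℝ where
  toFun z := (z : ℕ → ℝ) m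
  map_add' z w := by simp
  map_smul' c z := by simp

theorem abs_coord_le (m : ℕ) (z : X fam) : |coord m z| ≤ ∑' k, |(z : ℕ → ℝ) k| := by
  have := (summable_abs z).sum_le_tsum {m} (fun _ _ => abs_nonneg _)
  simpa [coord] using this

theorem continuous_phi (z : X fam) : Continuous (fun σ : ℕ → Bool => phi σ z) := by
  show Continuous (fun σ : ℕ → Bool => ∑' k, sg (σ k) * (z : ℕ → ℝ) k)
  refine continuous_tsum (u := fun k => |(z : ℕ → ℝ) k|) ?_ (summable_abs z) ?_
  · intro k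
    have : Continuous (fun b : Bool => sg b) := continuous_of_discreteTopology
    exact (this.comp (continuous_apply k)).mul continuous_const
  · intro k σ
    rw [Real.norm_eq_abs, abs_mul, abs_sg, one_mul]

/-- The Schur argument. -/
theorem tsum_tendsto (z : ℕ → X fam) (h1 : ∀ σ, Tendsto (fun n => phi σ (z n)) atTop (𝓝 0))
    (h2 : ∀ m, Tendsto (fun n => coord m (z n)) atTop (𝓝 0)) :
    Tendsto (fun n => ∑' k, |(z n : ℕ → ℝ) k|) atTop (𝓝 0) := by
  rw [Metric.tendsto_atTop]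
  intro ε hε
  -- the closed sets
  let A : ℕ → Set (ℕ → Bool) := fun N => {σ | ∀ n, N ≤ n → |phi σ (z n)| ≤ ε / 4}
  have hAc : ∀ N, IsClosed (A N) := by
    intro N
    have : A N = ⋂ n, ⋂ (_ : N ≤ n), {σ | |phi σ (z n)| ≤ ε / 4} := by
      ext σ; simp [A]
    rw [this]
    refine isClosed_iInter fun n => isClosed_iInter fun _ => ?_
    exact isClosed_le (continuous_phi (z n)).abs continuous_const
  have hAU : ⋃ N, A N = Set.univ := by
    refine Set.eq_univ_of_forall fun σ => ?_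
    have := (Metric.tendsto_atTop.mp (h1 σ)) (ε / 4) (by linarith)
    obtain ⟨N, hN⟩ := this
    refine Set.mem_iUnion.mpr ⟨N, fun n hn => ?_⟩
    have := hN n hn
    rw [Real.dist_eq, sub_zero] at this
    exact this.le
  obtain ⟨N, σ₀, hσ₀⟩ := nonempty_interior_of_iUnion_of_closed hAc hAU
  -- a basic neighbourhood
  obtain ⟨V, hVA, hVo, hσV⟩ := mem_interior.mp hσ₀
  obtain ⟨I, u, hu, hIV⟩ := (isOpen_pi_iff.mp hVo) σ₀ hσV
  -- bound on the finitely many coordinates in I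
  have hfin : Tendsto (fun n => ∑ k ∈ I, |coord k (z n)|) atTop (𝓝 0) := by
    have : Tendsto (fun n => ∑ k ∈ I, |coord k (z n)|) atTop (𝓝 (∑ k ∈ I, |(0:ℝ)|)) :=
      tendsto_finsetSum _ fun k _ => (h2 k).abs
    simpa using this
  obtain ⟨M, hM⟩ := (Metric.tendsto_atTop.mp hfin) (ε / 4) (by linarith)
  refine ⟨max N M, fun n hn => ?_⟩
  have hn1 : N ≤ n := (le_max_left _ _).trans hn
  have hn2 : M ≤ n := (le_max_right _ _).trans hn
  have hM' := hM n hn2
  rw [Real.dist_eq, sub_zero, abs_of_nonneg (Finset.sum_nonneg fun _ _ => abs_nonneg _)] at hM'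
  -- the test sign sequence
  classical
  let τ : ℕ → Bool := fun k => if k ∈ I then σ₀ k else decide (0 ≤ (z n : ℕ → ℝ) k)
  have hτ : τ ∈ A N := by
    apply hVA
    apply hIV
    intro k hk
    have : τ k = σ₀ k := if_pos hk
    rw [this]
    exact (hu k hk).2
  have h3 := hτ n hn1
  -- compare
  have h4 : ∀ k, |(z n : ℕ → ℝ) k| ≤ sg (τ k) * (z n : ℕ → ℝ) k +
      (if k ∈ I then 2 * |(z n : ℕ → ℝ) k| else 0) := by
    intro k
    by_cases hk : k ∈ I
    · rw [if_pos hk]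
      have := neg_abs_le (sg (τ k) * (z n : ℕ → ℝ) k)
      rw [abs_mul, abs_sg, one_mul] at this
      linarith
    · rw [if_neg hk, add_zero]
      have : τ k = decide (0 ≤ (z n : ℕ → ℝ) k) := if_neg hk
      rw [this]
      by_cases h0 : 0 ≤ (z n : ℕ → ℝ) k
      · simp [sg, h0, abs_of_nonneg h0]
      · simp [sg, h0, abs_of_neg (not_le.mp h0)]
  have hs2 : Summable (fun k => if k ∈ I then 2 * |(z n : ℕ → ℝ) k| else 0) :=
    summable_of_ne_finset_zero (s := I) fun k hk => if_neg hk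
  have h5 := (summable_abs (z n)).tsum_le_tsum h4 ((summable_sg τ (z n)).add hs2)
  rw [(summable_sg τ (z n)).tsum_add hs2, tsum_eq_sum (s := I) (fun k hk => if_neg hk)] at h5
  have h6 : ∑ k ∈ I, (if k ∈ I then 2 * |(z n : ℕ → ℝ) k| else 0) =
      2 * ∑ k ∈ I, |coord k (z n)| := by
    rw [Finset.mul_sum]
    exact Finset.sum_congr rfl fun k hk => by rw [if_pos hk]; rfl
  rw [h6] at h5
  have h7 : (∑' k, sg (τ k) * (z n : ℕ → ℝ) k) = phi τ (z n) := rfl
  rw [h7] at h5
  have h8 := le_abs_self (phi τ (z n))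
  rw [Real.dist_eq, sub_zero, abs_of_nonneg (tsum_nonneg fun _ => abs_nonneg _)]
  linarith

theorem schur_fam : SchurProperty fam := by
  intro x y h
  have key := tsum_tendsto (fun n => x n - y) ?_ ?_
  · have h1 : Tendsto (fun n => ENNReal.ofReal (∑' k, |((x n - y : X fam) : ℕ → ℝ) k|)) atTop
        (𝓝 0) := by
      have h := (ENNReal.continuous_ofReal.tendsto 0).comp key
      rw [ENNReal.ofReal_zero] at h
      exact h
    exact tendsto_of_tendsto_of_tendsto_of_le_of_le tendsto_const_nhds h1 (fun _ => zero_le)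
      (fun n => nrm_le_tsum _)
  · intro σ
    have := (h (phi σ) (bdd_of_le (abs_phi_le σ))).sub_const (phi σ y)
    simpa using this
  · intro m
    have := (h (coord m) (bdd_of_le (abs_coord_le m))).sub_const (coord m y)
    simpa using this

/-- For `A` in the closure of the family, `A` meets all but at most one block in a subset of some
`{k : i ∈ S k}`. -/
theorem closure_bad {A : ℕ → Bool} (hA : A ∈ closureFam fam) {c d : ℕ} (hc1 : 1 ≤ c) (hd1 : 1 ≤ d)
    (hc : ¬ ∃ i, ∀ k, InBlk c k → A k = true → i ∈ S k)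
    (hd : ¬ ∃ i, ∀ k, InBlk d k → A k = true → i ∈ S k) : c = d := by
  by_contra hcd
  -- a member of the family which agrees with `A` on the two blocks
  have hopen : IsOpen {B : ℕ → Bool | ∀ k ∈ blk c ∪ blk d, B k = A k} := by
    have : {B : ℕ → Bool | ∀ k ∈ blk c ∪ blk d, B k = A k} =
        ⋂ k ∈ blk c ∪ blk d, {B | B k = A k} := by
      ext B; simp
    rw [this]
    refine isOpen_biInter_finset fun k _ => ?_
    have h1 : IsOpen ((fun B : ℕ → Bool => B k) ⁻¹' {A k}) :=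
      (isOpen_discrete ({A k} : Set Bool)).preimage (continuous_apply k)
    exact h1
  obtain ⟨B, hB, F, hF, rfl⟩ := mem_closure_iff.mp hA _ hopen (fun k _ => rfl)
  simp only [Set.mem_ofPred_eq, Finset.mem_union, mem_blk] at hB
  rcases hF with ⟨e, he⟩ | hF
  · have h1 : ∃ k, InBlk c k ∧ A k = true := by
      by_contra hcon
      push Not at hcon
      exact hc ⟨0, fun k hk hk' => absurd hk' (hcon k hk)⟩
    have h2 : ∃ k, InBlk d k ∧ A k = true := by
      by_contra hcon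
      push Not at hcon
      exact hd ⟨0, fun k hk hk' => absurd hk' (hcon k hk)⟩
    obtain ⟨k, hk, hk'⟩ := h1
    obtain ⟨l, hl, hl'⟩ := h2
    have h3 := hB k (Or.inl hk)
    have h4 := hB l (Or.inr hl)
    rw [hk', decide_eq_true_eq] at h3
    rw [hl', decide_eq_true_eq] at h4
    exact hcd ((hk.eq (he k h3)).trans (hl.eq (he l h4)).symm)
  · obtain ⟨i, hi⟩ := hF c hc1
    apply hc
    refine ⟨i, fun k hk hk' => ?_⟩
    have h3 := hB k (Or.inl hk)
    rw [hk', decide_eq_true_eq] at h3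
    exact hi k h3 hk

theorem not_sStar_fam : ¬ SStar fam := by
  classical
  intro h
  obtain ⟨𝒜, h𝒜, hinf⟩ := h (fun n => blk (n + 1)) (fun n => Or.inl ⟨n + 1, fun k hk => mem_blk.mp hk⟩)
    (by
      intro m n hmn
      rw [Finset.disjoint_left]
      intro k hk hk'
      have := (mem_blk.mp hk).eq (mem_blk.mp hk')
      omega)
  -- the bad indices
  let Bad : (ℕ → Bool) → Set ℕ := fun A =>
    {n | ¬ ∃ i, ∀ k, InBlk (n + 1) k → A k = true → i ∈ S k}
  have hBad : ∀ A ∈ 𝒜, (Bad A).Finite := by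
    intro A hA
    refine Set.Subsingleton.finite ?_
    intro m hm n hn
    have := closure_bad (h𝒜 A hA) (Nat.le_add_left 1 m) (Nat.le_add_left 1 n) hm hn
    omega
  have hfin : ((⋃ A ∈ 𝒜, Bad A) ∪ ↑(Finset.range 𝒜.card) : Set ℕ).Finite :=
    (Set.Finite.biUnion 𝒜.finite_toSet hBad).union (Finset.finite_toSet _)
  obtain ⟨n, hn, hn'⟩ := (hinf.sdiff hfin).nonempty
  simp only [Set.mem_union, Set.mem_iUnion, not_or, not_exists, Finset.coe_range, Set.mem_Iio,
    not_lt] at hn'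
  obtain ⟨hgood, hcard⟩ := hn'
  have hidx : ∀ A ∈ 𝒜, ∃ i, ∀ k, InBlk (n + 1) k → A k = true → i ∈ S k := by
    intro A hA
    have := hgood A hA
    simpa [Bad] using this
  choose! i hi using hidx
  -- a set avoiding all indices
  let J : Finset ℕ := Finset.range (2 * (n + 1)) \ 𝒜.image i
  have hJ : n + 1 ≤ J.card := by
    have h1 := Finset.le_card_sdiff (𝒜.image i) (Finset.range (2 * (n + 1)))
    have h2 : (𝒜.image i).card ≤ 𝒜.card := Finset.card_image_le
    rw [Finset.card_range] at h1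
    have h3 : 2 * (n + 1) - (𝒜.image i).card ≤ J.card := h1
    omega
  obtain ⟨T, hTJ, hTc⟩ := Finset.exists_subset_card_eq hJ
  have hS : S (Finset.equivBitIndices.symm T) = T := by simp [S]
  have hb : InBlk (n + 1) (Finset.equivBitIndices.symm T) := by
    refine ⟨by rw [hS, hTc], ?_⟩
    rw [hS]
    exact hTJ.trans Finset.sdiff_subset
  obtain ⟨A, hA, hAk⟩ := hn _ (mem_blk.mpr hb)
  have h1 := hi A hA _ hb hAk
  rw [hS] at h1
  have h2 := hTJ h1
  simp only [J, Finset.mem_sdiff, Finset.mem_image, not_exists, not_and] at h2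
  exact h2.2 A hA rfl

/-- There is a hereditary family `𝓕` of finite subsets of `ℕ` covering `ℕ` such that `X_𝓕` has the
Schur property but `𝓕` fails `(S*)`. -/
theorem result : ∃ 𝓕 : Set (Finset ℕ), Hereditary 𝓕 ∧ Covers 𝓕 ∧ SchurProperty 𝓕 ∧ ¬ SStar 𝓕 :=
  ⟨fam, hereditary_fam, covers_fam, schur_fam, not_sStar_fam⟩

end Pool.Agent.Results.MP_8d662a_an.SchurNotSStar
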